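import Pool.Agent.H92.EHD.TP
import Pool.Agent.H14.EQ.TZ

/-!
Board ehd_modules, EA5: the mean of a density is controlled by the densities `tauH δ`.
-/

set_option autoImplicit false

namespace Pool.Agent.H79.EHD

open scoped BigOperators ComplexConjugate ContDiff ComplexOrder
open MeasureTheory
open Pool.Agent.H92.EQ Pool.Agent.H92.EHD

theorem gss_gs {N : ℕ} (X : Fin N → Fin N → ℂ) : gss X = ∏ i, ∏ j, gs 1 (X i j) := by
  unfold gss gs
  simp

theorem gs1_nonneg (t : ℂ) : 0 ≤ gs 1 t := Pool.Agent.H14.EQ.gs_nonneg one_pos t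

/-- Fubini for the first coordinate -/
theorem split {n : ℕ} {E : Type} [MeasureSpace E] [SigmaFinite (volume : Measure E)]
    {F : (Fin (n + 1) → E) → ENNReal} (hF : Measurable F) :
    ∫⁻ X, F X = ∫⁻ x : E, ∫⁻ X : Fin n → E, F (Fin.cons (α := fun _ => E) x X) := by
  have hmp := (volume_preserving_piFinSuccAbove (fun _ : Fin (n + 1) => E) 0).symm
  rw [← hmp.lintegral_comp hF]
  have hvol : (volume : Measure (E × (Fin n → E))) = volume.prod volume := rfl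
  have hm : Measurable fun z : E × (Fin n → E) =>
      F ((MeasurableEquiv.piFinSuccAbove (fun _ : Fin (n + 1) => E) 0).symm z) :=
    hF.comp hmp.measurable
  rw [hvol, lintegral_prod _ hm.aemeasurable]
  refine lintegral_congr fun x => lintegral_congr fun X => ?_
  have h0 : (MeasurableEquiv.piFinSuccAbove (fun _ : Fin (n + 1) => E) 0).symm (x, X) =
      (0 : Fin (n + 1)).insertNth x X := rfl
  rw [h0, Fin.insertNth_zero']

theorem gs_mass (n : ℕ) :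
    ∫⁻ x : Fin n → ℂ, ENNReal.ofReal (∏ j, gs 1 (x j)) = 1 := by
  have h := Pool.Agent.H14.EQ.gs_int (s := 1) one_pos
  have hI : Integrable (fun x : Fin n → ℂ => ∏ j, gs 1 (x j)) :=
    Integrable.fintype_prod (ι := Fin n) (μ := fun _ => (volume : Measure ℂ))
      (f := fun _ z => gs 1 z) fun _ => h.1
  rw [← ofReal_integral_eq_lintegral_ofReal hI
    (Filter.Eventually.of_forall fun x => Finset.prod_nonneg fun j _ => gs1_nonneg _)]
  have h2 : ∫ x : Fin n → ℂ, ∏ j, gs 1 (x j) = ∏ j : Fin n, ∫ t, gs 1 t :=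
    integral_fintype_prod_volume_eq_prod (fun _ : Fin n => gs 1)
  rw [h2, h.2]
  simp

theorem row1 {n : ℕ} {h : ℂ → ENNReal} (hh : Measurable h) :
    ∫⁻ x : Fin (n + 1) → ℂ, ENNReal.ofReal (∏ j, gs 1 (x j)) * h (x 0) =
      ∫⁻ t, ENNReal.ofReal (gs 1 t) * h t := by
  have hg : Measurable (gs 1) := (Pool.Agent.H14.EQ.gs_cont 1).measurable
  rw [split (by fun_prop)]
  refine lintegral_congr fun t => ?_
  have e : ∀ X : Fin n → ℂ,
      ENNReal.ofReal (∏ j, gs 1 (Fin.cons (α := fun _ => ℂ) t X j)) *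
        h (Fin.cons (α := fun _ => ℂ) t X 0) =
      (ENNReal.ofReal (gs 1 t) * h t) * ENNReal.ofReal (∏ j, gs 1 (X j)) := by
    intro X
    rw [Fin.prod_univ_succ, Fin.cons_zero, ENNReal.ofReal_mul (gs1_nonneg t)]
    simp only [Fin.cons_succ]
    ring
  simp only [e]
  rw [lintegral_const_mul _ (by fun_prop), gs_mass, mul_one]

section mat

variable {k : ℕ} (x0 : Fin (k + 1) → ℂ) (X : Fin k → Fin (k + 1) → ℂ)

theorem e1_zz : e1 (Fin.cons (α := fun _ => Fin (k + 1) → ℂ) x0 X) 0 0 = x0 0 := by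
  simp [e1, cut, row0]

theorem e1_zs (j : Fin k) :
    e1 (Fin.cons (α := fun _ => Fin (k + 1) → ℂ) x0 X) 0 j.succ = 0 := by
  simp [e1, cut, row0]

theorem e1_s (i : Fin k) (j : Fin (k + 1)) :
    e1 (Fin.cons (α := fun _ => Fin (k + 1) → ℂ) x0 X) i.succ j = X i j := by
  simp [e1, cut, row0]

theorem det_e1 : (e1 (Fin.cons (α := fun _ => Fin (k + 1) → ℂ) x0 X)).det =
      x0 0 * (Matrix.of fun i j : Fin k => X i j.succ).det := by
  rw [Matrix.det_succ_row_zero, Fin.sum_univ_succ]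
  have h0 : ∀ j : Fin k, (-1 : ℂ) ^ ((j.succ : Fin (k + 1)) : ℕ) *
      e1 (Fin.cons (α := fun _ => Fin (k + 1) → ℂ) x0 X) 0 j.succ *
      ((e1 (Fin.cons (α := fun _ => Fin (k + 1) → ℂ) x0 X)).submatrix Fin.succ
        (j.succ).succAbove).det = 0 := by
    intro j
    rw [e1_zs, mul_zero, zero_mul]
  rw [Finset.sum_eq_zero (fun j _ => h0 j), add_zero, e1_zz]
  have h1 : (e1 (Fin.cons (α := fun _ => Fin (k + 1) → ℂ) x0 X)).submatrix Fin.succ
      (Fin.succAbove 0) = Matrix.of fun i j : Fin k => X i j.succ := by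
    ext i j
    simp only [Matrix.submatrix_apply, Matrix.of_apply, Fin.zero_succAbove]
    exact e1_s x0 X i j.succ
  rw [h1]
  simp

theorem mv_e1 (y : Fin (k + 1) → ℂ) :
    (e1 (Fin.cons (α := fun _ => Fin (k + 1) → ℂ) x0 X)).mulVec y =
      ct (x0 0 * y 0) (fun i => ∑ j, X i j * y j) := by
  funext i
  refine Fin.cases ?_ (fun i => ?_) i
  · unfold Matrix.mulVec dotProduct
    rw [Fin.sum_univ_succ]
    simp only [e1_zz, e1_zs, zero_mul, Finset.sum_const_zero, add_zero]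
    simp [ct]
  · unfold Matrix.mulVec dotProduct
    simp only [e1_s]
    simp [ct]

end mat

theorem e1_cont {k : ℕ} : Continuous fun X : Fin (k + 1) → Fin (k + 1) → ℂ => e1 X := by
  refine continuous_pi fun i => continuous_pi fun j => ?_
  have h : ∀ X : Fin (k + 1) → Fin (k + 1) → ℂ, e1 X i j =
      if i = 0 then (if (j : ℕ) < 1 then X 0 j else 0) else X i j := by
    intro X
    by_cases hi : i = 0
    · subst hi
      simp [e1, cut, row0]
    · simp [e1, cut, row0, hi]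
  simp only [h]
  split_ifs <;> fun_prop

/-- the value of the density at a point of the chart -/
theorem hH_val {k : ℕ} {y : Fin (k + 1 + 1) → ℂ} (hy : y 0 ≠ 0) (hy1 : nsq y = 1) {t : ℂ}
    (ht : t ≠ 0) (w : Fin (k + 1) → ℂ) :
    hH (dH t (ct (t * y 0) w)) y =
      (‖y 0‖ ^ 2 + nsq w) / (‖y 0‖ ^ 2 * (‖y 0‖ ^ 2 + nsq w + 1) ^ 2) := by
  have ha : 0 < ‖y 0‖ := norm_pos_iff.2 hy
  have hT : 0 < ‖t‖ := norm_pos_iff.2 ht
  have hw : 0 ≤ nsq w := Finset.sum_nonneg fun i _ => sq_nonneg _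
  have e1 : tl (ct (t * y 0) w) = w := by
    funext i
    simp [tl, ct]
  have e2 : ct (t * y 0) w 0 = t * y 0 := by simp [ct]
  have hd : dH t (ct (t * y 0) w) ^ 2 = ‖y 0‖ ^ 2 / (‖y 0‖ ^ 2 + nsq w) := by
    unfold dH
    rw [e1, e2, div_pow, Real.sq_sqrt (by positivity), norm_mul]
    field_simp
  unfold hH
  rw [hd, hy1]
  field_simp
  ring

theorem exp_bd {a x : ℝ} (ha : 0 < a) (ha1 : a ≤ 1) (hx : 0 ≤ x) :
    Real.exp (-x) * (a + x + 1) ^ 2 ≤ 2 * Real.pi := by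
  have h1 : 1 + x / 2 ≤ Real.exp (x / 2) := by
    have := Real.add_one_le_exp (x / 2)
    linarith
  have h2 : (1 + x / 2) ^ 2 ≤ Real.exp x := by
    have h3 : Real.exp x = Real.exp (x / 2) ^ 2 := by
      rw [← Real.exp_nat_mul]
      congr 1
      push_cast
      ring
    rw [h3]
    gcongr
  have h3 : (a + x + 1) ^ 2 ≤ 4 * Real.exp x := by
    have h0 : a + x + 1 ≤ 2 + x := by linarith
    have : (a + x + 1) ^ 2 ≤ (2 + x) ^ 2 := pow_le_pow_left₀ (by linarith) h0 2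
    nlinarith
  have h4 : Real.exp (-x) * Real.exp x = 1 := by
    rw [← Real.exp_add]
    simp
  have h5 : 0 < Real.exp (-x) := Real.exp_pos _
  have h6 : Real.exp (-x) * (a + x + 1) ^ 2 ≤ Real.exp (-x) * (4 * Real.exp x) := by gcongr
  have h7 : Real.exp (-x) * (4 * Real.exp x) = 4 := by linear_combination 4 * h4
  have := Real.pi_gt_three
  linarith

theorem ct_meas {n : ℕ} (c : ℂ) :
    Measurable fun p : ℂ × (Fin n → ℂ) => ct (p.1 * c) p.2 := by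
  refine measurable_pi_lambda _ fun i => ?_
  refine Fin.cases ?_ (fun i => ?_) i
  · simp only [ct, Fin.cons_zero]
    fun_prop
  · simp only [ct, Fin.cons_succ]
    fun_prop

theorem ct_meas' {n : ℕ} (c : ℂ) : Measurable fun w : Fin n → ℂ => ct c w := by
  refine measurable_pi_lambda _ fun i => ?_
  refine Fin.cases ?_ (fun i => ?_) i
  · simp only [ct, Fin.cons_zero]
    fun_prop
  · simp only [ct, Fin.cons_succ]
    fun_prop

theorem nsq_smul {n : ℕ} (l : ℂ) (z : Fin n → ℂ) : nsq (l • z) = ‖l‖ ^ 2 * nsq z := by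
  unfold nsq
  rw [Finset.mul_sum]
  refine Finset.sum_congr rfl fun i _ => ?_
  rw [Pi.smul_apply, smul_eq_mul, norm_mul, mul_pow]

theorem nsq_nonneg {n : ℕ} (z : Fin n → ℂ) : 0 ≤ nsq z := Finset.sum_nonneg fun _ _ => sq_nonneg _

theorem nsq_meas {n : ℕ} : Measurable (nsq : (Fin n → ℂ) → ℝ) := by
  unfold nsq
  fun_prop

theorem dH_smul {k : ℕ} (t : ℂ) {l : ℂ} (hl : l ≠ 0) (Y : Fin (k + 1 + 1) → ℂ) :
    dH t (l • Y) = dH t Y := by
  have hL : 0 < ‖l‖ := norm_pos_iff.2 hl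
  unfold dH
  have e1 : tl (l • Y) = l • tl Y := rfl
  rw [e1, nsq_smul, Pi.smul_apply, smul_eq_mul, norm_mul]
  have e2 : (‖l‖ * ‖Y 0‖) ^ 2 + ‖t‖ ^ 2 * (‖l‖ ^ 2 * nsq (tl Y)) =
      ‖l‖ ^ 2 * (‖Y 0‖ ^ 2 + ‖t‖ ^ 2 * nsq (tl Y)) := by ring
  rw [e2, Real.sqrt_mul (sq_nonneg _), Real.sqrt_sq hL.le, mul_div_mul_left _ _ hL.ne']

theorem dH_meas {k : ℕ} (t : ℂ) : Measurable fun Y : Fin (k + 1 + 1) → ℂ => dH t Y := by
  have h : Measurable fun Y : Fin (k + 1 + 1) → ℂ => nsq (tl Y) := by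
    unfold nsq tl
    fun_prop
  unfold dH
  fun_prop

theorem hH_nonneg {k : ℕ} (δ : ℝ) (y : Fin (k + 1 + 1) → ℂ) : 0 ≤ hH δ y := by
  unfold hH
  have := nsq_nonneg y
  positivity

theorem hH_smul {k : ℕ} (δ : ℝ) {r : ℝ} (hr : 0 < r) (y : Fin (k + 1 + 1) → ℂ) :
    hH δ ((r : ℂ) • y) = (r ^ (2 * (k + 1 + 1)))⁻¹ * hH δ y := by
  unfold hH
  rw [nsq_smul, Pi.smul_apply, smul_eq_mul, norm_mul, Complex.norm_real, Real.norm_eq_abs,
    abs_of_pos hr, mul_pow, mul_div_mul_left _ _ (by positivity), mul_pow, ← pow_mul,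
    show 2 * (k + 2) = 2 * (k + 1 + 1) from rfl]
  rw [div_eq_mul_inv, div_eq_mul_inv _ (nsq y ^ (k + 2)), mul_inv]
  ring

theorem alg {P R : ℝ} (hP : 0 ≤ P) (hR : 0 ≤ R) (a d : ℂ) (q : ℝ) :
    ENNReal.ofReal (P * R * (‖a * d‖ ^ 2 * q)) =
      (ENNReal.ofReal P * ENNReal.ofReal (‖a‖ ^ 2)) *
        (ENNReal.ofReal (R * ‖d‖ ^ 2) * ENNReal.ofReal q) := by
  rw [← ENNReal.ofReal_mul hP, ← ENNReal.ofReal_mul (mul_nonneg hR (sq_nonneg _)),
    ← ENNReal.ofReal_mul (mul_nonneg hP (sq_nonneg _)), norm_mul]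
  congr 1
  ring

/-- the statement for points of norm one -/
theorem core {k : ℕ} (hEA4 : T_EA4) {C : ENNReal} (hC : C ≠ ⊤)
    (h2 : ∀ y : Fin (k + 1 + 1) → ℂ, nsq y = 1 →
      ∀ g : (Fin (k + 1) → ℂ) → ENNReal, Measurable g →
      ∫⁻ X : Fin (k + 1) → Fin (k + 1 + 1) → ℂ,
        ENNReal.ofReal ((∏ i, ∏ j, gs 1 (X i j)) *
          ‖(Matrix.of fun i j : Fin (k + 1) => X i j.succ).det‖ ^ 2) *
          g (fun i => ∑ j, X i j * y j) ≤
      C * ∫⁻ w : Fin (k + 1) → ℂ,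
        ENNReal.ofReal (Real.exp (-nsq w) * (‖y 0‖ ^ 2 + nsq w)) * g w)
    {Q0 : (Fin (k + 1 + 1) → ℂ) → ℝ} (hm : Measurable Q0)
    (hh : ∀ (l : ℂ) (z : Fin (k + 1 + 1) → ℂ), l ≠ 0 → z ≠ 0 →
      Q0 (l • z) = (‖l‖ ^ (2 * (k + 1 + 1)))⁻¹ * Q0 z)
    {y : Fin (k + 1 + 1) → ℂ} (hy : y 0 ≠ 0) (hy1 : nsq y = 1) :
    ∫⁻ X : Fin (k + 1 + 1) → Fin (k + 1 + 1) → ℂ,
        ENNReal.ofReal (gss X * (‖(e1 X).det‖ ^ 2 * Q0 ((e1 X).mulVec y))) ≤
      C * ∫⁻ t : ℂ, ENNReal.ofReal (gs 1 t) *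
        ∫⁻ Y in {z : Fin (k + 1 + 1) → ℂ | 0 ≤ ell z ∧ ell z < 1},
          ENNReal.ofReal (Q0 Y * hH (dH t Y) y) := by
  have hg : Measurable (gs 1) := (Pool.Agent.H14.EQ.gs_cont 1).measurable
  have ha : 0 < ‖y 0‖ := norm_pos_iff.2 hy
  have ha1 : ‖y 0‖ ^ 2 ≤ 1 := by
    rw [← hy1]
    exact Finset.single_le_sum (f := fun i => ‖y i‖ ^ 2) (fun i _ => sq_nonneg _)
      (Finset.mem_univ 0)
  set J : ℂ → ENNReal := fun t => ∫⁻ w : Fin (k + 1) → ℂ,
    ENNReal.ofReal (Real.exp (-nsq w) * (‖y 0‖ ^ 2 + nsq w)) *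
      ENNReal.ofReal (Q0 (ct (t * y 0) w)) with hJ
  have hJm : Measurable J := by
    have h : Measurable fun p : ℂ × (Fin (k + 1) → ℂ) =>
        ENNReal.ofReal (Real.exp (-nsq p.2) * (‖y 0‖ ^ 2 + nsq p.2)) *
          ENNReal.ofReal (Q0 (ct (p.1 * y 0) p.2)) := by
      have h1 : Measurable fun p : ℂ × (Fin (k + 1) → ℂ) => nsq p.2 :=
        nsq_meas.comp measurable_snd
      have h3 : Measurable fun p : ℂ × (Fin (k + 1) → ℂ) => Q0 (ct (p.1 * y 0) p.2) :=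
        hm.comp (ct_meas (y 0))
      exact ((h1.neg.exp).mul (h1.const_add _)).ennreal_ofReal.mul h3.ennreal_ofReal
    exact h.lintegral_prod_right'
  -- the inner integral
  have hF : Measurable fun X : Fin (k + 1 + 1) → Fin (k + 1 + 1) → ℂ =>
      ENNReal.ofReal (gss X * (‖(e1 X).det‖ ^ 2 * Q0 ((e1 X).mulVec y))) := by
    have c1 : Continuous fun X : Fin (k + 1 + 1) → Fin (k + 1 + 1) → ℂ => (e1 X).det :=
      e1_cont.matrix_det
    have c2 : Continuous fun X : Fin (k + 1 + 1) → Fin (k + 1 + 1) → ℂ => (e1 X).mulVec y :=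
      e1_cont.matrix_mulVec continuous_const
    have c3 : Measurable fun X : Fin (k + 1 + 1) → Fin (k + 1 + 1) → ℂ => gss X := by
      unfold gss
      fun_prop
    exact (c3.mul ((c1.norm.pow 2).measurable.mul (hm.comp c2.measurable))).ennreal_ofReal
  have s1 : ∫⁻ X : Fin (k + 1 + 1) → Fin (k + 1 + 1) → ℂ,
      ENNReal.ofReal (gss X * (‖(e1 X).det‖ ^ 2 * Q0 ((e1 X).mulVec y))) ≤
      ∫⁻ x : Fin (k + 1 + 1) → ℂ, ENNReal.ofReal (∏ j, gs 1 (x j)) *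
        (ENNReal.ofReal (‖x 0‖ ^ 2) * (C * J (x 0))) := by
    rw [split hF]
    refine lintegral_mono fun x => ?_
    have hP : 0 ≤ ∏ j, gs 1 (x j) := Finset.prod_nonneg fun j _ => gs1_nonneg _
    have e : ∀ X : Fin (k + 1) → Fin (k + 1 + 1) → ℂ,
        ENNReal.ofReal (gss (Fin.cons (α := fun _ => Fin (k + 1 + 1) → ℂ) x X) *
          (‖(e1 (Fin.cons (α := fun _ => Fin (k + 1 + 1) → ℂ) x X)).det‖ ^ 2 *
          Q0 ((e1 (Fin.cons (α := fun _ => Fin (k + 1 + 1) → ℂ) x X)).mulVec y))) =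
        (ENNReal.ofReal (∏ j, gs 1 (x j)) * ENNReal.ofReal (‖x 0‖ ^ 2)) *
          (ENNReal.ofReal ((∏ i, ∏ j, gs 1 (X i j)) *
            ‖(Matrix.of fun i j : Fin (k + 1) => X i j.succ).det‖ ^ 2) *
            (fun v => ENNReal.ofReal (Q0 (ct (x 0 * y 0) v)))
              (fun i => ∑ j, X i j * y j)) := by
      intro X
      have hPP : 0 ≤ ∏ i, ∏ j, gs 1 (X i j) :=
        Finset.prod_nonneg fun i _ => Finset.prod_nonneg fun j _ => gs1_nonneg _
      rw [det_e1, mv_e1, gss_gs, Fin.prod_univ_succ]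
      simp only [Fin.cons_zero, Fin.cons_succ]
      exact alg hP hPP _ _ _
    simp only [e]
    rw [lintegral_const_mul' _ _ (ENNReal.mul_ne_top ENNReal.ofReal_ne_top
      ENNReal.ofReal_ne_top), mul_assoc]
    gcongr
    exact h2 y hy1 (fun v => ENNReal.ofReal (Q0 (ct (x 0 * y 0) v)))
      (hm.comp (ct_meas' _)).ennreal_ofReal
  refine s1.trans ?_
  have s2 := row1 (n := k + 1) (h := fun t => ENNReal.ofReal (‖t‖ ^ 2) * (C * J t))
    (by fun_prop)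
  rw [s2, ← lintegral_const_mul' _ _ hC]
  refine lintegral_mono fun t => ?_
  have key : ENNReal.ofReal (‖t‖ ^ 2) * J t ≤
      ∫⁻ Y in {z : Fin (k + 1 + 1) → ℂ | 0 ≤ ell z ∧ ell z < 1},
          ENNReal.ofReal (Q0 Y * hH (dH t Y) y) := by
    by_cases ht : t = 0
    · subst ht
      simp
    have hT : 0 < ‖t‖ := norm_pos_iff.2 ht
    have hhm : Measurable fun Y : Fin (k + 1 + 1) → ℂ => hH (dH t Y) y := by
      have := dH_meas (k := k) t
      unfold hH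
      fun_prop
    rw [hEA4 (k + 1) (fun Y => ENNReal.ofReal (Q0 Y * hH (dH t Y) y))
      (hm.mul hhm).ennreal_ofReal ?_ (t * y 0) (mul_ne_zero ht hy)]
    · rw [← lintegral_const_mul' _ _ ENNReal.ofReal_ne_top,
        ← lintegral_const_mul' _ _ ENNReal.ofReal_ne_top]
      refine lintegral_mono fun w => ?_
      have hw := nsq_nonneg w
      have e1 : ENNReal.ofReal (‖t‖ ^ 2) *
          (ENNReal.ofReal (Real.exp (-nsq w) * (‖y 0‖ ^ 2 + nsq w)) *
          ENNReal.ofReal (Q0 (ct (t * y 0) w))) =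
          ENNReal.ofReal (‖t‖ ^ 2 * (Real.exp (-nsq w) * (‖y 0‖ ^ 2 + nsq w))) *
          ENNReal.ofReal (Q0 (ct (t * y 0) w)) := by
        rw [ENNReal.ofReal_mul (sq_nonneg _), mul_assoc]
      have e2 : ENNReal.ofReal (2 * Real.pi * ‖t * y 0‖ ^ 2) *
          ENNReal.ofReal (Q0 (ct (t * y 0) w) * hH (dH t (ct (t * y 0) w)) y) =
          ENNReal.ofReal (2 * Real.pi * ‖t * y 0‖ ^ 2 * hH (dH t (ct (t * y 0) w)) y) *
          ENNReal.ofReal (Q0 (ct (t * y 0) w)) := by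
        rw [mul_comm (Q0 _), ENNReal.ofReal_mul (hH_nonneg _ _), ← mul_assoc,
          ← ENNReal.ofReal_mul (by positivity)]
      rw [e1, e2]
      refine mul_le_mul_left (ENNReal.ofReal_le_ofReal ?_) _
      rw [hH_val hy hy1 ht, norm_mul]
      have hb := exp_bd (a := ‖y 0‖ ^ 2) (x := nsq w) (by positivity) ha1 hw
      have e3 : 2 * Real.pi * (‖t‖ * ‖y 0‖) ^ 2 * ((‖y 0‖ ^ 2 + nsq w) /
          (‖y 0‖ ^ 2 * (‖y 0‖ ^ 2 + nsq w + 1) ^ 2)) =
          ‖t‖ ^ 2 * (2 * Real.pi / (‖y 0‖ ^ 2 + nsq w + 1) ^ 2 * (‖y 0‖ ^ 2 + nsq w)) := by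
        field_simp
      rw [e3]
      gcongr
      rw [le_div_iff₀ (by positivity)]
      exact hb
    · intro l z hl hz
      rw [dH_smul t hl, hh l z hl hz, mul_assoc, ENNReal.ofReal_mul (by positivity)]
  calc ENNReal.ofReal (gs 1 t) * (ENNReal.ofReal (‖t‖ ^ 2) * (C * J t))
      = C * (ENNReal.ofReal (gs 1 t) * (ENNReal.ofReal (‖t‖ ^ 2) * J t)) := by ring
    _ ≤ _ := by gcongr

theorem pf_EA5 (hEA2 : T_EA2) (hEA4 : T_EA4) (hS5 : T_S5) : T_EA5 := by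
  intro k
  obtain ⟨C, hC, h2⟩ := hEA2 (k + 1)
  refine ⟨C, hC, ?_⟩
  intro σ hσ y hy
  obtain ⟨hc, hh, -⟩ := hS5 (k + 1 + 1) (k + 1) 0 σ (fun _ : Fin 0 => ell) (fun _ => 0) (by omega)
    hσ (fun j => j.elim0)
  have hm : Measurable fun z => Q σ (fun _ : Fin 0 => ell) z :=
    measurable_of_continuousOn_compl_singleton 0 hc
  have hn : 0 < nsq y := by
    have h1 : ‖y 0‖ ^ 2 ≤ nsq y := Finset.single_le_sum (f := fun i => ‖y i‖ ^ 2)
      (fun i _ => sq_nonneg _) (Finset.mem_univ 0)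
    have h3 : 0 < ‖y 0‖ := norm_pos_iff.2 hy
    have h4 : 0 < ‖y 0‖ ^ 2 := by positivity
    linarith
  set r : ℝ := Real.sqrt (nsq y) with hr
  have hr0 : 0 < r := Real.sqrt_pos.2 hn
  have hr2 : r ^ 2 = nsq y := Real.sq_sqrt hn.le
  have hrc : (r : ℂ) ≠ 0 := by exact_mod_cast hr0.ne'
  set v : Fin (k + 1 + 1) → ℂ := ((r : ℂ)⁻¹) • y with hv
  have hyv : y = (r : ℂ) • v := by
    rw [hv, smul_smul, mul_inv_cancel₀ hrc, one_smul]
  have hv0 : v 0 ≠ 0 := by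
    rw [hv, Pi.smul_apply, smul_eq_mul]
    exact mul_ne_zero (inv_ne_zero hrc) hy
  have hvne : v ≠ 0 := fun h => hv0 (by rw [h]; rfl)
  have hv1 : nsq v = 1 := by
    rw [hv, nsq_smul, norm_inv, Complex.norm_real, Real.norm_eq_abs, abs_of_pos hr0, ← hr2]
    field_simp
  have hmain := core (k := k) hEA4 hC h2 hm hh hv0 hv1
  set c : ℝ := (r ^ (2 * (k + 1 + 1)))⁻¹ with hcdef
  have hc0 : 0 ≤ c := by positivity
  have e1' : ∀ X : Fin (k + 1 + 1) → Fin (k + 1 + 1) → ℂ,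
      ENNReal.ofReal (gss X * (‖(e1 X).det‖ ^ 2 *
        Q σ (fun _ : Fin 0 => ell) ((e1 X).mulVec y))) =
      ENNReal.ofReal c * ENNReal.ofReal (gss X * (‖(e1 X).det‖ ^ 2 *
        Q σ (fun _ : Fin 0 => ell) ((e1 X).mulVec v))) := by
    intro X
    rw [← ENNReal.ofReal_mul hc0]
    congr 1
    by_cases hd : (e1 X).det = 0
    · rw [hd]
      simp
    · have hz : (e1 X).mulVec v ≠ 0 := fun h => hvne (Matrix.eq_zero_of_mulVec_eq_zero hd h)
      have h5 : (e1 X).mulVec y = (r : ℂ) • (e1 X).mulVec v := by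
        conv_lhs => rw [hyv]
        rw [Matrix.mulVec_smul]
      rw [h5, hh _ _ hrc hz, Complex.norm_real, Real.norm_eq_abs, abs_of_pos hr0, ← hcdef]
      ring
  have e2' : ∀ (t : ℂ) (Y : Fin (k + 1 + 1) → ℂ),
      ENNReal.ofReal (Q σ (fun _ : Fin 0 => ell) Y * hH (dH t Y) y) =
      ENNReal.ofReal c * ENNReal.ofReal (Q σ (fun _ : Fin 0 => ell) Y * hH (dH t Y) v) := by
    intro t Y
    rw [← ENNReal.ofReal_mul hc0]
    congr 1
    conv_lhs => rw [hyv]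
    rw [hH_smul _ hr0]
    ring
  simp only [e1', e2']
  rw [lintegral_const_mul' _ _ ENNReal.ofReal_ne_top]
  have e3 : ∀ t : ℂ, ENNReal.ofReal (gs 1 t) *
      ∫⁻ Y in {z : Fin (k + 1 + 1) → ℂ | 0 ≤ ell z ∧ ell z < 1},
        ENNReal.ofReal c * ENNReal.ofReal (Q σ (fun _ : Fin 0 => ell) Y * hH (dH t Y) v) =
      ENNReal.ofReal c * (ENNReal.ofReal (gs 1 t) *
      ∫⁻ Y in {z : Fin (k + 1 + 1) → ℂ | 0 ≤ ell z ∧ ell z < 1},
        ENNReal.ofReal (Q σ (fun _ : Fin 0 => ell) Y * hH (dH t Y) v)) := by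
    intro t
    rw [lintegral_const_mul' _ _ ENNReal.ofReal_ne_top]
    ring
  simp only [e3]
  rw [lintegral_const_mul' _ _ ENNReal.ofReal_ne_top]
  calc _ ≤ ENNReal.ofReal c * (C * _) := mul_le_mul_right hmain _
    _ = _ := by ring

end Pool.Agent.H79.EHD
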